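import Mathlib

set_option autoImplicit false
open Real Filter Topology

namespace Pool.Agent.X202.Wv

noncomputable def bt (t : ℝ) : ℝ := smoothTransition (5*t) * smoothTransition (1 - 5*t)
noncomputable def mu (s : ℝ) : ℝ := smoothTransition (1/2 - s) - bt (-1/2 - s) + bt (s - 1/2)
/-- the low-pass filter -/
noncomputable def mm (x : ℝ) : ℝ := Real.cos (π/2 * mu (Real.cos (2*π*x)))

theorem st_add (x : ℝ) : smoothTransition x + smoothTransition (1 - x) = 1 := by
  have h := Real.smoothTransition.pos_denom x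
  unfold smoothTransition
  have e : 1 - (1 - x) = x := by ring
  rw [e, add_comm (expNegInvGlue (1 - x)) (expNegInvGlue x), ← add_div, div_self h.ne']

theorem bt_nonneg (t : ℝ) : 0 ≤ bt t :=
  mul_nonneg (smoothTransition.nonneg _) (smoothTransition.nonneg _)

theorem bt_le (t : ℝ) : bt t ≤ smoothTransition (5*t) := by
  unfold bt
  exact mul_le_of_le_one_right (smoothTransition.nonneg _) (smoothTransition.le_one _)

theorem bt_le4 (t : ℝ) : bt t ≤ 1/4 := by
  unfold bt
  have := st_add (5*t)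
  nlinarith [sq_nonneg (smoothTransition (5*t) - smoothTransition (1 - 5*t))]

theorem bt_zero {t : ℝ} (h : t ≤ 0) : bt t = 0 := by
  unfold bt; rw [smoothTransition.zero_of_nonpos (by linarith)]; ring

theorem bt_zero' {t : ℝ} (h : 1/5 ≤ t) : bt t = 0 := by
  unfold bt; rw [smoothTransition.zero_of_nonpos (x := 1 - 5*t) (by linarith)]; ring

theorem bt_pos {t : ℝ} (h : 0 < t) (h' : t < 1/5) : 0 < bt t :=
  mul_pos (smoothTransition.pos_of_pos (by linarith)) (smoothTransition.pos_of_pos (by linarith))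

theorem mu_one_sub (s : ℝ) : 1 - mu s = smoothTransition (1/2 + s) + bt (-1/2 - s) - bt (s - 1/2) := by
  have := st_add (1/2 - s)
  have e : 1 - (1/2 - s) = 1/2 + s := by ring
  rw [e] at this
  unfold mu; linarith

theorem mu_neg (s : ℝ) : mu (-s) = 1 - mu s := by
  rw [mu_one_sub]; unfold mu
  have e1 : (1/2 - -s : ℝ) = 1/2 + s := by ring
  have e2 : (-1/2 - -s : ℝ) = s - 1/2 := by ring
  have e3 : (-s - 1/2 : ℝ) = -1/2 - s := by ring
  rw [e1, e2, e3]; ring

theorem mu_nonneg (s : ℝ) : 0 ≤ mu s := by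
  unfold mu
  have h1 := bt_nonneg (s - 1/2)
  rcases le_or_gt (-1/2 - s) 0 with h | h
  · rw [bt_zero h]; linarith [smoothTransition.nonneg (1/2 - s)]
  · rw [smoothTransition.one_of_one_le (x := 1/2 - s) (by linarith)]
    linarith [bt_le4 (-1/2 - s)]

theorem mu_le_one (s : ℝ) : mu s ≤ 1 := by
  have := mu_nonneg (-s)
  rw [mu_neg] at this; linarith

theorem mu_zero {s : ℝ} (h : 7/10 ≤ s) : mu s = 0 := by
  unfold mu
  rw [smoothTransition.zero_of_nonpos (by linarith), bt_zero (by linarith), bt_zero' (by linarith)]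
  ring

theorem mu_lt {s : ℝ} (h : -7/10 < s) (h' : s ≠ -1/2) : mu s < 1 := by
  have h1 := mu_one_sub s
  rcases lt_or_gt_of_ne h' with h2 | h2
  · rw [bt_zero (t := s - 1/2) (by linarith)] at h1
    have := bt_pos (t := -1/2 - s) (by linarith) (by linarith)
    linarith [smoothTransition.nonneg (1/2 + s)]
  · rcases le_or_gt s (1/2) with h3 | h3
    · rw [bt_zero (t := s - 1/2) (by linarith)] at h1
      have := smoothTransition.pos_of_pos (x := 1/2 + s) (by linarith)
      linarith [bt_nonneg (-1/2 - s)]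
    · rw [smoothTransition.one_of_one_le (x := 1/2 + s) (by linarith)] at h1
      linarith [bt_le4 (s - 1/2), bt_nonneg (-1/2 - s)]

theorem mu_contDiff : ContDiff ℝ (⊤ : ℕ∞) mu := by
  unfold mu bt
  have h := (Real.smoothTransition.contDiff (n := (⊤ : ℕ∞)))
  fun_prop (disch := assumption)

theorem mm_contDiff : ContDiff ℝ (⊤ : ℕ∞) mm := by
  unfold mm
  apply Real.contDiff_cos.comp
  apply contDiff_const.mul
  apply mu_contDiff.comp
  apply Real.contDiff_cos.comp
  fun_prop

theorem mm_add_one (x : ℝ) : mm (x + 1) = mm x := by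
  unfold mm
  rw [show 2*π*(x+1) = 2*π*x + 2*π by ring, Real.cos_add_two_pi]

theorem mm_add_int (x : ℝ) (n : ℤ) : mm (x + n) = mm x := by
  unfold mm
  rw [show 2*π*(x+n) = 2*π*x + n*(2*π) by ring, Real.cos_add_int_mul_two_pi]

theorem mm_neg (x : ℝ) : mm (-x) = mm x := by
  unfold mm
  rw [show 2*π*(-x) = -(2*π*x) by ring, Real.cos_neg]

theorem mm_half (x : ℝ) : mm (x + 1/2) = Real.sin (π/2 * mu (Real.cos (2*π*x))) := by
  unfold mm
  rw [show 2*π*(x+1/2) = 2*π*x + π by ring, Real.cos_add_pi, mu_neg,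
    show π/2 * (1 - mu (Real.cos (2*π*x))) = π/2 - π/2*mu (Real.cos (2*π*x)) by ring,
    Real.cos_pi_div_two_sub]

theorem mm_sq (x : ℝ) : mm x ^ 2 + mm (x + 1/2) ^ 2 = 1 := by
  rw [mm_half]; unfold mm; exact Real.cos_sq_add_sin_sq _

theorem mm_abs (x : ℝ) : |mm x| ≤ 1 := Real.abs_cos_le_one _

theorem mm_one {x : ℝ} (h : |x| ≤ 1/8) : mm x = 1 := by
  have h1 : 7/10 ≤ Real.cos (2*π*x) := by
    have h2 : Real.cos (π/4) ≤ Real.cos (2*π*x) := by
      rw [← Real.cos_abs (2*π*x)]
      apply Real.cos_le_cos_of_nonneg_of_le_pi (abs_nonneg _) (by linarith [Real.pi_pos])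
      rw [abs_mul, abs_of_pos (by positivity : 0 < 2*π)]
      nlinarith [Real.pi_pos]
    rw [Real.cos_pi_div_four] at h2
    have : (7/5:ℝ) ≤ √2 := Real.le_sqrt_of_sq_le (by norm_num)
    linarith
  unfold mm; rw [mu_zero h1]; simp

theorem mm_zero {x : ℝ} (n : ℤ) (h : |x - n - 1/2| ≤ 1/8) : mm x = 0 := by
  have h1 := mm_sq (x - n - 1/2)
  rw [mm_one h] at h1
  have e : x - n - 1/2 + 1/2 = x + ((-n : ℤ) : ℝ) := by push_cast; ring
  rw [e, mm_add_int] at h1
  nlinarith [sq_nonneg (mm x)]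

theorem mm_pos {x : ℝ} (h : -7/10 < Real.cos (2*π*x)) (h' : Real.cos (2*π*x) ≠ -1/2) : mm x ≠ 0 := by
  have h1 := mu_lt h h'
  have h2 := mu_nonneg (Real.cos (2*π*x))
  unfold mm
  apply ne_of_gt
  apply Real.cos_pos_of_mem_Ioo
  constructor
  · nlinarith [Real.pi_pos]
  · nlinarith [Real.pi_pos]

/-- lower bound near zero -/
theorem mm_low {x : ℝ} (h : |x| ≤ 1/4) : 1/2 ≤ mm x ^ 2 := by
  have h1 : 0 ≤ Real.cos (2*π*x) := by
    apply Real.cos_nonneg_of_mem_Icc
    have := abs_le.1 h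
    constructor <;> nlinarith [Real.pi_pos]
  have h2 : mu (Real.cos (2*π*x)) ≤ 1/2 := by
    set s := Real.cos (2*π*x)
    have h3 := st_add (1/2 - s)
    unfold mu
    rw [bt_zero (t := -1/2 - s) (by linarith)]
    rcases le_or_gt s (1/2) with h4 | h4
    · rw [bt_zero (t := s - 1/2) (by linarith)]
      have h5 : smoothTransition (1/2 - s) ≤ smoothTransition (1 - (1/2 - s)) := by
        unfold smoothTransition
        have e : 1 - (1 - (1/2 - s)) = 1/2 - s := by ring
        rw [e, add_comm (expNegInvGlue (1 - (1/2 - s)))]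
        gcongr
        · exact (Real.smoothTransition.pos_denom (1/2 - s)).le
        · exact expNegInvGlue.monotone (by linarith)
      linarith
    · rw [smoothTransition.zero_of_nonpos (by linarith)]
      linarith [bt_le4 (s - 1/2)]
  have h3 := mu_nonneg (Real.cos (2*π*x))
  have h4 : Real.cos (π/4) ≤ mm x := by
    unfold mm
    apply Real.cos_le_cos_of_nonneg_of_le_pi
    · positivity
    · linarith [Real.pi_pos]
    · nlinarith [Real.pi_pos]
  rw [Real.cos_pi_div_four] at h4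
  have h5 : (0:ℝ) < √2 / 2 := by positivity
  have h6 : (√2/2)^2 = 1/2 := by rw [div_pow, Real.sq_sqrt (by norm_num)]; norm_num
  nlinarith

/-- flatness of the smooth transition -/
theorem st_flat (N : ℕ) : ∃ C : ℝ, 0 ≤ C ∧ ∀ x : ℝ, 0 ≤ x → smoothTransition x ≤ C * x ^ N := by
  refine ⟨max (2 ^ N) (N.factorial / expNegInvGlue (1/2)), by positivity, fun x hx => ?_⟩
  rcases lt_or_ge (1/2) x with h | h
  · calc smoothTransition x ≤ 1 := smoothTransition.le_one _
      _ ≤ (2 * x) ^ N := one_le_pow₀ (by linarith)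
      _ = 2 ^ N * x ^ N := mul_pow _ _ _
      _ ≤ _ := by gcongr; exact le_max_left _ _
  · rcases hx.eq_or_lt with h0 | h0
    · rw [← h0, smoothTransition.zero_of_nonpos le_rfl]; positivity
    have hE : 0 < expNegInvGlue (1/2) := expNegInvGlue.pos_of_pos (by norm_num)
    have h1 : smoothTransition x ≤ expNegInvGlue x / expNegInvGlue (1/2) := by
      unfold smoothTransition
      gcongr
      · exact expNegInvGlue.nonneg x
      · have := expNegInvGlue.monotone (show (1/2:ℝ) ≤ 1 - x by linarith)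
        linarith [expNegInvGlue.nonneg x]
    have h2 : expNegInvGlue x ≤ N.factorial * x ^ N := by
      unfold expNegInvGlue
      rw [if_neg (not_le.2 h0), Real.exp_neg]
      have h3 := Real.pow_div_factorial_le_exp x⁻¹ (by positivity) N
      rw [inv_le_iff_one_le_mul₀ (Real.exp_pos _)]
      have h4 : (N.factorial : ℝ) * x ^ N * (x⁻¹ ^ N / N.factorial) = 1 := by
        rw [inv_pow]; field_simp
      calc (1:ℝ) = (N.factorial : ℝ) * x ^ N * (x⁻¹ ^ N / N.factorial) := h4.symm
        _ ≤ (N.factorial : ℝ) * x ^ N * Real.exp x⁻¹ := by gcongr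
    calc smoothTransition x ≤ expNegInvGlue x / expNegInvGlue (1/2) := h1
      _ ≤ (N.factorial * x ^ N) / expNegInvGlue (1/2) := by gcongr
      _ = (N.factorial / expNegInvGlue (1/2)) * x ^ N := by ring
      _ ≤ _ := by gcongr; exact le_max_right _ _

theorem cos_third : Real.cos (2*π*(1/3)) = -1/2 := by
  rw [show 2*π*(1/3) = π - π/3 by ring, Real.cos_pi_sub, Real.cos_pi_div_three]; norm_num

theorem cos_close (t : ℝ) : |Real.cos (2*π*(1/3+t)) + 1/2| ≤ 2*π*|t| := by
  have h := cos_third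
  have h1 : Real.cos (2*π*(1/3+t)) + 1/2 = Real.cos (2*π*(1/3+t)) - Real.cos (2*π*(1/3)) := by
    rw [h]; ring
  rw [h1]
  have h2 := Real.abs_cos_sub_cos_le (2*π*(1/3+t)) (2*π*(1/3))
  calc _ ≤ |2*π*(1/3+t) - 2*π*(1/3)| := h2
    _ = 2*π*|t| := by
      rw [show 2*π*(1/3+t) - 2*π*(1/3) = 2*π*t by ring, abs_mul, abs_of_pos (by positivity : 0 < 2*π)]

/-- the filter is flat at 1/3 -/
theorem mm_flat (N : ℕ) : ∃ C : ℝ, 0 ≤ C ∧ ∀ t : ℝ, |t| ≤ 1/8 → |mm (1/3 + t)| ≤ C * |t| ^ N := by
  obtain ⟨C, hC, h⟩ := st_flat N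
  refine ⟨π/2 * (C * (2*π)^N + C * (5*(2*π))^N), by positivity, fun t ht => ?_⟩
  have h1 := cos_close t
  have hpi := Real.pi_lt_d2
  have hpp := Real.pi_pos
  set s := Real.cos (2*π*(1/3+t)) with hs
  have h2 : mm (1/3+t) = Real.sin (π/2 * (1 - mu s)) := by
    unfold mm; rw [← hs, show π/2*(1 - mu s) = π/2 - π/2*mu s by ring, Real.sin_pi_div_two_sub]
  have h3 : s ≤ 1/2 := by
    have := (abs_le.1 h1).2
    nlinarith
  have h4 : 1 - mu s ≤ smoothTransition |s+1/2| + smoothTransition (5*|s+1/2|) := by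
    rw [mu_one_sub, bt_zero (t := s - 1/2) (by linarith)]
    have ha : smoothTransition (1/2 + s) ≤ smoothTransition |s+1/2| := by
      rcases le_or_gt (s + 1/2) 0 with h5 | h5
      · rw [smoothTransition.zero_of_nonpos (x := 1/2+s) (by linarith)]
        exact smoothTransition.nonneg _
      · rw [abs_of_pos h5, add_comm s]
    have hb : bt (-1/2 - s) ≤ smoothTransition (5*|s+1/2|) := by
      rcases le_or_gt (-1/2 - s) 0 with h5 | h5
      · rw [bt_zero h5]
        exact smoothTransition.nonneg _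
      · rw [abs_of_neg (by linarith), show -(s+1/2) = -1/2 - s by ring]
        exact bt_le _
    linarith
  have h5 : smoothTransition |s+1/2| ≤ C * (2*π*|t|)^N :=
    (h _ (abs_nonneg _)).trans (by gcongr)
  have h6 : smoothTransition (5*|s+1/2|) ≤ C * (5*(2*π*|t|))^N :=
    (h _ (by positivity)).trans (by gcongr)
  have h7 : 0 ≤ 1 - mu s := by linarith [mu_le_one s]
  rw [h2]
  calc |Real.sin (π/2 * (1 - mu s))| ≤ |π/2 * (1 - mu s)| := Real.abs_sin_le_abs
    _ = π/2 * (1 - mu s) := abs_of_nonneg (by positivity)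
    _ ≤ π/2 * (C * (2*π*|t|)^N + C * (5*(2*π*|t|))^N) := by gcongr; linarith
    _ = _ := by rw [mul_pow _ |t|, mul_pow 5, mul_pow 5, mul_pow _ |t|]; ring

end Pool.Agent.X202.Wv
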