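import Pool.Agent.X202.Wv.A

set_option autoImplicit false
open Real Filter Topology

namespace Pool.Agent.X202.Wv

noncomputable def GG (N : ℕ) (y : ℝ) : ℝ := ∏ j ∈ Finset.range N, mm (y / 2^(j+1))
noncomputable def gg (y : ℝ) : ℝ := GG ⌈4*|y|⌉₊ y

theorem GG_stab {y : ℝ} {M : ℕ} (h : 4*|y| ≤ 2^M) (k : ℕ) : GG (M+k) y = GG M y := by
  induction k with
  | zero => rfl
  | succ k ih =>
    have e : GG (M + (k+1)) y = GG (M+k) y * mm (y / 2^(M+k+1)) := by
      unfold GG; rw [← add_assoc, Finset.prod_range_succ]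
    rw [e, ih, mm_one, mul_one]
    rw [abs_div, abs_of_pos (by positivity : (0:ℝ) < 2^(M+k+1)), div_le_iff₀ (by positivity)]
    have : (2:ℝ)^(M+k+1) = 2 * 2^M * 2^k := by rw [pow_succ, pow_add]; ring
    rw [this]
    have h1 : (1:ℝ) ≤ 2^k := one_le_pow₀ (by norm_num)
    have h2 : (0:ℝ) < 2^M := by positivity
    nlinarith

theorem ceil_le_pow (y : ℝ) : 4*|y| ≤ 2^⌈4*|y|⌉₊ := by
  have h1 := Nat.le_ceil (4*|y|)
  have h2 : (⌈4*|y|⌉₊ : ℝ) < 2^⌈4*|y|⌉₊ := by exact_mod_cast Nat.lt_two_pow_self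
  linarith

theorem gg_eq {y : ℝ} {M : ℕ} (h : 4*|y| ≤ 2^M) : gg y = GG M y := by
  unfold gg
  set K := ⌈4*|y|⌉₊ with hK
  rcases le_total K M with h1 | h1
  · obtain ⟨k, rfl⟩ := Nat.exists_eq_add_of_le h1
    rw [GG_stab (ceil_le_pow y)]
  · obtain ⟨k, hk⟩ := Nat.exists_eq_add_of_le h1
    rw [hk, GG_stab h]

theorem GG_contDiff (N : ℕ) : ContDiff ℝ (⊤ : ℕ∞) (GG N) := by
  unfold GG
  apply contDiff_prod
  intro j _
  exact mm_contDiff.comp (by fun_prop)

theorem gg_contDiff : ContDiff ℝ (⊤ : ℕ∞) gg := by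
  rw [contDiff_iff_contDiffAt]
  intro x
  obtain ⟨M, hM⟩ : ∃ M : ℕ, 4*(|x|+1) ≤ 2^M := by
    obtain ⟨M, hM⟩ := pow_unbounded_of_one_lt (4*(|x|+1)) (one_lt_two)
    exact ⟨M, hM.le⟩
  apply (GG_contDiff M).contDiffAt.congr_of_eventuallyEq
  filter_upwards [Metric.ball_mem_nhds x one_pos] with y hy
  apply gg_eq
  rw [Metric.mem_ball, Real.dist_eq] at hy
  have := abs_sub_abs_le_abs_sub y x
  linarith

theorem gg_one {y : ℝ} (h : |y| ≤ 1/4) : gg y = 1 := by
  rw [gg_eq (M := 0) (by simp; linarith)]; simp [GG]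

theorem GG_succ' (M : ℕ) (y : ℝ) : GG (M+1) (2*y) = mm y * GG M y := by
  unfold GG
  rw [Finset.prod_range_succ', mul_comm]
  congr 1
  · congr 1; ring
  · apply Finset.prod_congr rfl
    intro j _
    congr 1
    rw [pow_succ 2 (j+1)]; field_simp

theorem gg_two (y : ℝ) : gg (2*y) = mm y * gg y := by
  have h := ceil_le_pow y
  rw [gg_eq h, gg_eq (y := 2*y) (M := ⌈4*|y|⌉₊ + 1), GG_succ']
  rw [abs_mul, pow_succ]; simp; linarith

theorem gg_half (y : ℝ) : gg y = mm (y/2) * gg (y/2) := by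
  have := gg_two (y/2)
  rwa [show 2*(y/2) = y by ring] at this

theorem GG_neg (N : ℕ) (y : ℝ) : GG N (-y) = GG N y := by
  unfold GG
  apply Finset.prod_congr rfl
  intro j _
  rw [neg_div, mm_neg]

theorem gg_neg (y : ℝ) : gg (-y) = gg y := by
  unfold gg; rw [abs_neg, GG_neg]

theorem GG_abs (N : ℕ) (y : ℝ) : |GG N y| ≤ 1 := by
  unfold GG
  rw [Finset.abs_prod]
  exact Finset.prod_le_one (fun _ _ => abs_nonneg _) (fun _ _ => mm_abs _)

theorem gg_abs (y : ℝ) : |gg y| ≤ 1 := GG_abs _ _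

/-- the scaling identity at level N -/
theorem gg_pow (N : ℕ) (y : ℝ) : gg y = GG N y * gg (y / 2^N) := by
  induction N with
  | zero => simp [GG]
  | succ N ih =>
    have e : GG (N+1) y = GG N y * mm (y/2^(N+1)) := by unfold GG; rw [Finset.prod_range_succ]
    rw [ih, e, gg_half (y/2^N), div_div, ← pow_succ]
    ring

/-- the partition of unity for the partial products -/
theorem GG_sum (N : ℕ) (y : ℝ) : ∑ k ∈ Finset.range (2^N), GG N (y + k) ^ 2 = 1 := by
  induction N with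
  | zero => simp [GG]
  | succ N ih =>
    have e : ∀ z, GG (N+1) z = GG N z * mm (z/2^(N+1)) := by
      intro z; unfold GG; rw [Finset.prod_range_succ]
    have e2 : (2:ℕ)^(N+1) = 2^N + 2^N := by ring
    rw [e2, Finset.sum_range_add, ← Finset.sum_add_distrib, ← ih]
    apply Finset.sum_congr rfl
    intro k _
    have e3 : GG N (y + ((2^N + k : ℕ) : ℝ)) = GG N (y + k) := by
      unfold GG
      apply Finset.prod_congr rfl
      intro j hj
      have hj' := Finset.mem_range.1 hj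
      obtain ⟨l, hl⟩ := Nat.exists_eq_add_of_lt hj'
      have : (y + ((2^N + k : ℕ) : ℝ)) / 2^(j+1) = (y + k)/2^(j+1) + ((2^l : ℤ) : ℝ) := by
        push_cast
        rw [hl, show j + l + 1 = (j+1) + l by ring, pow_add]
        field_simp
        ring
      rw [this, mm_add_int]
    have e4 : (y + ((2^N + k : ℕ) : ℝ)) / 2^(N+1) = (y + k)/2^(N+1) + 1/2 := by
      push_cast; rw [pow_succ]; field_simp; ring
    rw [e, e, e3, e4]
    have := mm_sq ((y+k)/2^(N+1))
    rw [mul_pow, mul_pow, ← mul_add, this, mul_one]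

theorem GG_per (N : ℕ) (y : ℝ) (q : ℤ) : GG N (y + q * 2^N) = GG N y := by
  unfold GG
  apply Finset.prod_congr rfl
  intro j hj
  have hj' := Finset.mem_range.1 hj
  obtain ⟨l, hl⟩ := Nat.exists_eq_add_of_lt hj'
  have : (y + q * 2^N) / 2^(j+1) = y/2^(j+1) + ((q * 2^l : ℤ) : ℝ) := by
    push_cast
    rw [hl, show j + l + 1 = (j+1) + l by ring, pow_add]
    field_simp
  rw [this, mm_add_int]

theorem gg_low {y : ℝ} (h : |y| ≤ 1/2) : 1/2 ≤ gg y ^ 2 := by
  rw [gg_half, gg_one (y := y/2) (by rw [abs_div]; norm_num; linarith), mul_one]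
  apply mm_low
  rw [abs_div]; norm_num; linarith

end Pool.Agent.X202.Wv
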