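import Pool.Agent.X202.Wv.B

set_option autoImplicit false
open Real Filter Topology

namespace Pool.Agent.X202.Wv

noncomputable def aW (y : ℝ) (N : ℕ) : ℤ := ⌈-(2:ℝ)^N - y⌉
noncomputable def WW (y : ℝ) (N : ℕ) : Finset ℤ := Finset.Ico (aW y N) (aW y N + 2^(N+1))

theorem WW_sum (y : ℝ) (N : ℕ) : ∑ k ∈ WW y N, GG (N+1) (y + k) ^ 2 = 1 := by
  rw [← GG_sum (N+1) (y + aW y N)]
  symm
  apply Finset.sum_bij (fun (k : ℕ) _ => aW y N + (k : ℤ))
  · intro k hk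
    have h1 := Finset.mem_range.1 hk
    rw [WW, Finset.mem_Ico]
    constructor
    · omega
    · have : (k : ℤ) < 2^(N+1) := by exact_mod_cast h1
      omega
  · intro a _ b _ h
    omega
  · intro b hb
    rw [WW, Finset.mem_Ico] at hb
    refine ⟨(b - aW y N).toNat, ?_, ?_⟩
    · rw [Finset.mem_range]
      have h1 : ((b - aW y N).toNat : ℤ) = b - aW y N := Int.toNat_of_nonneg (by omega)
      have h2 : ((b - aW y N).toNat : ℤ) < ((2^(N+1) : ℕ) : ℤ) := by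
        rw [h1]; push_cast; omega
      exact_mod_cast h2
    · have h1 : ((b - aW y N).toNat : ℤ) = b - aW y N := Int.toNat_of_nonneg (by omega)
      rw [h1]; ring
  · intro k hk
    congr 2
    push_cast; ring

theorem WW_mem {y : ℝ} {N : ℕ} {k : ℤ} (h : k ∈ WW y N) : |y + k| ≤ 2^N := by
  rw [WW, Finset.mem_Ico] at h
  have h1 := Int.le_ceil (-(2:ℝ)^N - y)
  have h2 := Int.ceil_lt_add_one (-(2:ℝ)^N - y)
  have h3 : (aW y N : ℝ) ≤ k := by exact_mod_cast h.1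
  have h4 : (k : ℝ) + 1 ≤ aW y N + 2^(N+1) := by exact_mod_cast h.2
  unfold aW at h3 h4
  rw [pow_succ] at h4
  rw [abs_le]; constructor <;> linarith

theorem mem_WW {y : ℝ} {N : ℕ} {k : ℤ} (h : |y + k| < 2^N) : k ∈ WW y N := by
  rw [WW, Finset.mem_Ico]
  rw [abs_lt] at h
  have h1 := Int.le_ceil (-(2:ℝ)^N - y)
  constructor
  · unfold aW; rw [Int.ceil_le]; linarith
  · have : (k : ℝ) < aW y N + 2^(N+1) := by
      unfold aW; rw [pow_succ]; linarith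
    exact_mod_cast this

theorem GG_le (y : ℝ) (N : ℕ) (k : ℤ) (h : k ∈ WW y N) : GG (N+1) (y+k)^2 ≤ 2 * gg (y+k)^2 := by
  rw [gg_pow (N+1) (y+k), mul_pow]
  have h1 := gg_low (y := (y+k)/2^(N+1)) (by
    rw [abs_div, abs_of_pos (by positivity : (0:ℝ) < 2^(N+1)), div_le_iff₀ (by positivity), pow_succ]
    linarith [WW_mem h])
  nlinarith [sq_nonneg (GG (N+1) (y+k))]

theorem ev_pow (c : ℝ) : ∀ᶠ N : ℕ in atTop, c ≤ (2:ℝ)^N :=
  (tendsto_pow_atTop_atTop_of_one_lt (one_lt_two : (1:ℝ) < 2)).eventually_ge_atTop c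

theorem ev_mem (y : ℝ) (k : ℤ) : ∀ᶠ N : ℕ in atTop, k ∈ WW y N ∧ gg (y+k) = GG (N+1) (y+k) := by
  filter_upwards [ev_pow (4*|y+k|), ev_pow (4*|y+k|+1)] with N h1 h2
  refine ⟨mem_WW ?_, gg_eq ?_⟩
  · linarith [abs_nonneg (y+k)]
  · rw [pow_succ]; linarith [abs_nonneg (y+k), (by positivity : (0:ℝ) < 2^N)]

theorem gg_summable (y : ℝ) : Summable (fun k : ℤ => gg (y+k)^2) := by
  apply summable_of_sum_le (c := 1) (fun k => sq_nonneg _)
  intro u
  have h : ∀ᶠ N : ℕ in atTop, ∀ k ∈ u, k ∈ WW y N ∧ gg (y+k) = GG (N+1) (y+k) :=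
    (Finset.eventually_all u).2 (fun k _ => ev_mem y k)
  obtain ⟨N, hN⟩ := h.exists
  rw [← WW_sum y N]
  calc ∑ k ∈ u, gg (y+k)^2 = ∑ k ∈ u, GG (N+1) (y+k)^2 :=
        Finset.sum_congr rfl (fun k hk => by rw [(hN k hk).2])
    _ ≤ _ := Finset.sum_le_sum_of_subset_of_nonneg (fun k hk => (hN k hk).1) (fun _ _ _ => sq_nonneg _)

theorem gg_tsum (y : ℝ) : ∑' k : ℤ, gg (y+k)^2 = 1 := by
  classical
  have h1 : Tendsto (fun N : ℕ => ∑' k : ℤ, (if k ∈ WW y N then GG (N+1) (y+k)^2 else 0)) atTop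
      (𝓝 (∑' k : ℤ, gg (y+k)^2)) := by
    apply tendsto_tsum_of_dominated_convergence (bound := fun k : ℤ => 2 * gg (y+k)^2)
      ((gg_summable y).mul_left 2)
    · intro k
      apply tendsto_const_nhds.congr'
      filter_upwards [ev_mem y k] with N hN
      rw [if_pos hN.1, hN.2]
    · apply Eventually.of_forall
      intro N k
      split_ifs with hk
      · rw [Real.norm_of_nonneg (sq_nonneg _)]; exact GG_le y N k hk
      · rw [norm_zero]; positivity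
  have h2 : ∀ N : ℕ, ∑' k : ℤ, (if k ∈ WW y N then GG (N+1) (y+k)^2 else 0) = 1 := by
    intro N
    rw [tsum_eq_sum (s := WW y N) (fun k hk => if_neg hk), ← WW_sum y N]
    exact Finset.sum_congr rfl (fun k hk => if_pos hk)
  simp only [h2] at h1
  exact (tendsto_nhds_unique h1 tendsto_const_nhds)

theorem gg_enn (y : ℝ) : ∑' k : ℤ, ‖((gg (y+k) : ℝ) : ℂ)‖ₑ ^ 2 = 1 := by
  have h : ∀ k : ℤ, ‖((gg (y+k) : ℝ) : ℂ)‖ₑ ^ 2 = ENNReal.ofReal (gg (y+k)^2) := by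
    intro k
    rw [← ofReal_norm, Complex.norm_real, ← ENNReal.ofReal_pow (norm_nonneg _), Real.norm_eq_abs, sq_abs]
  simp only [h]
  rw [← ENNReal.ofReal_tsum_of_nonneg (fun k => sq_nonneg _) (gg_summable y), gg_tsum]
  simp

end Pool.Agent.X202.Wv
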