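import Pool.Agent.X202.Wv.C

set_option autoImplicit false
open Real Filter Topology

namespace Pool.Agent.X202.Wv

/-- smooth with all derivatives bounded -/
def BD (f : ℝ → ℂ) : Prop := ContDiff ℝ (⊤ : ℕ∞) f ∧ ∀ r : ℕ, ∃ C : ℝ, ∀ x, ‖iteratedDeriv r f x‖ ≤ C

theorem leib {f g : ℝ → ℂ} (hf : ContDiff ℝ (⊤ : ℕ∞) f) (hg : ContDiff ℝ (⊤ : ℕ∞) g) (n : ℕ) (x : ℝ) :
    ‖iteratedDeriv n (fun y => f y * g y) x‖ ≤ ∑ i ∈ Finset.range (n+1),
      (n.choose i : ℝ) * ‖iteratedDeriv i f x‖ * ‖iteratedDeriv (n-i) g x‖ := by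
  have := norm_iteratedFDeriv_mul_le (𝕜 := ℝ) hf hg x (n := n) (by exact_mod_cast le_top)
  simpa only [norm_iteratedFDeriv_eq_norm_iteratedDeriv] using this

theorem BD.mul {f g : ℝ → ℂ} (hf : BD f) (hg : BD g) : BD (fun y => f y * g y) := by
  refine ⟨hf.1.mul hg.1, fun r => ?_⟩
  choose Cf hCf using hf.2
  choose Cg hCg using hg.2
  refine ⟨∑ i ∈ Finset.range (r+1), (r.choose i : ℝ) * Cf i * Cg (r-i), fun x => ?_⟩
  apply (leib hf.1 hg.1 r x).trans
  apply Finset.sum_le_sum
  intro i _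
  have h1 := hCf i x
  have h2 := hCg (r-i) x
  have h3 := (norm_nonneg _).trans h1
  gcongr

theorem BD.scale {f : ℝ → ℂ} (hf : BD f) (c : ℝ) : BD (fun y => f (c * y)) := by
  refine ⟨hf.1.comp (by fun_prop), fun r => ?_⟩
  obtain ⟨C, hC⟩ := hf.2 r
  refine ⟨|c|^r * C, fun x => ?_⟩
  rw [iteratedDeriv_comp_const_smul (hf.1.of_le (by exact_mod_cast le_top)) c, norm_smul, norm_pow,
    Real.norm_eq_abs]
  gcongr
  exact hC _

theorem BD.periodic {f : ℝ → ℂ} (hf : ContDiff ℝ (⊤ : ℕ∞) f) (hp : ∀ x, f (1 + x) = f x) : BD f := by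
  refine ⟨hf, fun r => ?_⟩
  have hc : Continuous (iteratedDeriv r f) := hf.continuous_iteratedDeriv r (by exact_mod_cast le_top)
  have hper : Function.Periodic (iteratedDeriv r f) 1 := by
    intro x
    have h1 := iteratedDeriv_comp_const_add r f 1
    have h2 : (fun z => f (1 + z)) = f := funext hp
    rw [h2] at h1
    have h3 := congrFun h1 x
    rw [add_comm, ← h3]
  obtain ⟨C, hC⟩ := (isCompact_Icc (a := (0:ℝ)) (b := 1)).exists_bound_of_continuousOn hc.continuousOn
  refine ⟨C, fun x => ?_⟩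
  obtain ⟨y, hy, hxy⟩ := hper.exists_mem_Ico₀ one_pos x
  rw [hxy]
  exact hC y ⟨hy.1, hy.2.le⟩

noncomputable def mC (y : ℝ) : ℂ := ((mm y : ℝ) : ℂ)
noncomputable def gC (y : ℝ) : ℂ := ((gg y : ℝ) : ℂ)
noncomputable def hC (y : ℝ) : ℂ := Complex.exp (2 * π * Complex.I * y) * mC (y + 1/2)

theorem mC_contDiff : ContDiff ℝ (⊤ : ℕ∞) mC := Complex.ofRealCLM.contDiff.comp mm_contDiff
theorem gC_contDiff : ContDiff ℝ (⊤ : ℕ∞) gC := Complex.ofRealCLM.contDiff.comp gg_contDiff
theorem hC_contDiff : ContDiff ℝ (⊤ : ℕ∞) hC := by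
  unfold hC
  apply ContDiff.mul
  · apply ContDiff.cexp
    exact contDiff_const.mul Complex.ofRealCLM.contDiff
  · exact mC_contDiff.comp (by fun_prop)

theorem mC_BD : BD mC := BD.periodic mC_contDiff (fun x => by unfold mC; rw [add_comm, mm_add_one])

theorem hC_per (x : ℝ) : hC (x + 1) = hC x := by
  unfold hC mC
  rw [show x + 1 + 1/2 = (x + 1/2) + 1 by ring, mm_add_one]
  congr 1
  rw [show (2 * π * Complex.I * ((x+1 : ℝ) : ℂ) : ℂ) = 2 * π * Complex.I * (x : ℂ) + 2 * π * Complex.I by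
    push_cast; ring, Complex.exp_periodic]

theorem hC_BD : BD hC := BD.periodic hC_contDiff (fun x => by rw [add_comm, hC_per])

theorem gC_half : gC = fun y => (fun z => mC z * gC z) ((1/2) * y) := by
  funext y
  unfold gC mC
  simp only
  rw [show (1/2) * y = y/2 by ring, ← Complex.ofReal_mul, ← gg_half]

theorem gC_BD : BD gC := by
  refine ⟨gC_contDiff, fun r => ?_⟩
  induction r using Nat.strong_induction_on with
  | _ r ih =>
    rcases Nat.eq_zero_or_pos r with hr | hr
    · subst hr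
      refine ⟨1, fun x => ?_⟩
      rw [iteratedDeriv_zero, gC, Complex.norm_real, Real.norm_eq_abs]
      exact gg_abs x
    · choose Cm hCm using mC_BD.2
      choose! Cg hCg using ih
      set K := ∑ i ∈ Finset.range r, (r.choose (i+1) : ℝ) * Cm (i+1) * Cg (r-(i+1)) with hK
      have hk : ContDiff ℝ (⊤ : ℕ∞) (fun z => mC z * gC z) := mC_contDiff.mul gC_contDiff
      have key : ∀ y, ‖iteratedDeriv r gC y‖ ≤ 1/2 * (K + ‖iteratedDeriv r gC (y/2)‖) := by
        intro y
        have h1 : iteratedDeriv r gC y = (1/2:ℝ)^r • iteratedDeriv r (fun z => mC z * gC z) ((1/2) * y) := by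
          conv_lhs => rw [gC_half]
          rw [iteratedDeriv_comp_const_smul (hk.of_le (by exact_mod_cast le_top)) (1/2)]
        rw [h1, norm_smul, norm_pow]
        have h2 : ‖(1/2:ℝ)‖^r ≤ 1/2 := by
          rw [Real.norm_of_nonneg (by norm_num)]
          calc (1/2:ℝ)^r ≤ (1/2)^1 := pow_le_pow_of_le_one (by norm_num) (by norm_num) hr
            _ = 1/2 := by norm_num
        have h3 : ‖iteratedDeriv r (fun z => mC z * gC z) ((1/2) * y)‖ ≤
            K + ‖iteratedDeriv r gC (y/2)‖ := by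
          apply (leib mC_contDiff gC_contDiff r _).trans
          rw [Finset.sum_range_succ', show (1/2) * y = y/2 by ring]
          apply add_le_add
          · apply Finset.sum_le_sum
            intro i hi
            have hi' := Finset.mem_range.1 hi
            have h4 := hCm (i+1) (y/2)
            have h5 := hCg (r-(i+1)) (by omega) (y/2)
            have h6 := (norm_nonneg _).trans h4
            gcongr
          · simp only [Nat.choose_zero_right, Nat.cast_one, one_mul, iteratedDeriv_zero, Nat.sub_zero]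
            apply mul_le_of_le_one_left (norm_nonneg _)
            rw [mC, Complex.norm_real, Real.norm_eq_abs]
            exact mm_abs _
        gcongr
      have hc : Continuous (iteratedDeriv r gC) :=
        gC_contDiff.continuous_iteratedDeriv r (by exact_mod_cast le_top)
      obtain ⟨a, ha⟩ := (isCompact_Icc (a := (-1:ℝ)) (b := 1)).exists_bound_of_continuousOn hc.continuousOn
      refine ⟨max a K, fun x => ?_⟩
      have hall : ∀ n : ℕ, ∀ y : ℝ, |y| ≤ 2^n → ‖iteratedDeriv r gC y‖ ≤ max a K := by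
        intro n
        induction n with
        | zero =>
          intro y hy
          rw [pow_zero, abs_le] at hy
          exact (ha y hy).trans (le_max_left _ _)
        | succ n ihn =>
          intro y hy
          have h1 := key y
          have h2 := ihn (y/2) (by rw [abs_div, abs_two]; rw [pow_succ] at hy; linarith)
          have h3 := le_max_right a K
          linarith
      obtain ⟨n, hn⟩ := pow_unbounded_of_one_lt |x| (one_lt_two)
      exact hall n x hn.le

/-- rapidly decreasing -/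
def RD (f : ℝ → ℂ) : Prop := ∀ N : ℕ, ∃ C : ℝ, ∀ x, (1+|x|)^N * ‖f x‖ ≤ C

/-- Landau type interpolation -/
theorem landau {f : ℝ → ℂ} (hd : Differentiable ℝ f) (hd2 : Differentiable ℝ (deriv f))
    {B : ℝ} (hB : ∀ x, ‖deriv (deriv f) x‖ ≤ B) (hf : RD f) : RD (deriv f) := by
  intro N
  obtain ⟨C, hC⟩ := hf (2*N)
  refine ⟨B + C + 2^(2*N) * C, fun x => ?_⟩
  set w := (1+|x|)^N with hw
  have hw1 : 1 ≤ w := one_le_pow₀ (by linarith [abs_nonneg x])
  have hw0 : 0 < w := by linarith
  set h := w⁻¹ with hh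
  have hh0 : 0 < h := by positivity
  have hh1 : h ≤ 1 := inv_le_one_of_one_le₀ hw1
  have hB0 : 0 ≤ B := (norm_nonneg _).trans (hB 0)
  have h1 : ∀ t ∈ Set.Icc x (x+h), ‖deriv f t - deriv f x‖ ≤ B * h := by
    intro t ht
    have := (convex_Icc x (x+h)).norm_image_sub_le_of_norm_deriv_le (f := deriv f) (C := B)
      (fun y _ => hd2 y) (fun y _ => hB y) (Set.left_mem_Icc.2 (by linarith)) ht
    apply this.trans
    gcongr
    rw [Real.norm_of_nonneg (by linarith [ht.1])]
    linarith [ht.2]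
  have h2 : ‖(f (x+h) - (x+h) • deriv f x) - (f x - x • deriv f x)‖ ≤ B * h * ‖(x+h) - x‖ := by
    apply (convex_Icc x (x+h)).norm_image_sub_le_of_norm_hasDerivWithin_le
      (f := fun t => f t - t • deriv f x) (f' := fun t => deriv f t - (1:ℝ) • deriv f x)
    · intro t ht
      exact ((hd t).hasDerivAt.sub ((hasDerivAt_id t).smul_const (deriv f x))).hasDerivWithinAt
    · intro t ht
      rw [one_smul]; exact h1 t ht
    · exact Set.left_mem_Icc.2 (by linarith)
    · exact Set.right_mem_Icc.2 (by linarith)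
  have h3 : (f (x+h) - (x+h) • deriv f x) - (f x - x • deriv f x) = (f (x+h) - f x) - h • deriv f x := by
    rw [add_smul]; abel
  rw [h3, add_sub_cancel_left, Real.norm_of_nonneg hh0.le] at h2
  have h4 : h * ‖deriv f x‖ ≤ B * h * h + (‖f (x+h)‖ + ‖f x‖) := by
    have e : ‖h • deriv f x‖ = h * ‖deriv f x‖ := by rw [norm_smul, Real.norm_of_nonneg hh0.le]
    rw [← e]
    have h5 : h • deriv f x = (f (x+h) - f x) - ((f (x+h) - f x) - h • deriv f x) := by abel
    rw [h5]
    have h6 := norm_sub_le (f (x+h) - f x) ((f (x+h) - f x) - h • deriv f x)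
    have h7 := norm_sub_le (f (x+h)) (f x)
    linarith
  have hwh : w * h = 1 := mul_inv_cancel₀ hw0.ne'
  have h5 : w^2 * ‖f x‖ ≤ C := by
    have := hC x
    rwa [mul_comm 2 N, pow_mul] at this
  have h6 : w^2 * ‖f (x+h)‖ ≤ 2^(2*N) * C := by
    have h7 := hC (x+h)
    have h8 : w^2 ≤ 2^(2*N) * (1+|x+h|)^(2*N) := by
      rw [hw, ← pow_mul, mul_comm N 2, ← mul_pow]
      gcongr
      have : |x| ≤ |x+h| + h := by
        have := abs_sub_abs_le_abs_sub x (x+h)
        rw [show x - (x+h) = -h by ring, abs_neg, abs_of_pos hh0] at this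
        linarith
      linarith [abs_nonneg (x+h)]
    calc w^2 * ‖f (x+h)‖ ≤ (2^(2*N) * (1+|x+h|)^(2*N)) * ‖f (x+h)‖ := by gcongr
      _ = 2^(2*N) * ((1+|x+h|)^(2*N) * ‖f (x+h)‖) := by ring
      _ ≤ _ := by gcongr
  have h7 : w * ‖deriv f x‖ = w^2 * (h * ‖deriv f x‖) := by
    rw [sq, mul_assoc w w, ← mul_assoc w h, hwh, one_mul]
  rw [h7]
  have h8 : w^2 * (h * ‖deriv f x‖) ≤ w^2 * (B * h * h + (‖f (x+h)‖ + ‖f x‖)) := by gcongr
  have h9 : w^2 * (B * h * h) = B := by
    calc w^2 * (B * h * h) = B * (w*h) * (w*h) := by ring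
      _ = B := by rw [hwh]; ring
  nlinarith

theorem RD_iter {f : ℝ → ℂ} (hf : BD f) (h : RD f) (r : ℕ) : RD (iteratedDeriv r f) := by
  induction r with
  | zero => simpa using h
  | succ r ih =>
    rw [iteratedDeriv_succ]
    obtain ⟨B, hB⟩ := hf.2 (r+2)
    have hd : ∀ k : ℕ, Differentiable ℝ (iteratedDeriv k f) := fun k =>
      hf.1.differentiable_iteratedDeriv k (by exact_mod_cast WithTop.coe_lt_top k)
    apply landau (hd r) (by rw [← iteratedDeriv_succ]; exact hd _) (B := B) _ ih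
    intro x
    rw [← iteratedDeriv_succ, ← iteratedDeriv_succ]
    exact hB x

/-- Schwartz function from a rapidly decreasing function with bounded derivatives -/
noncomputable def toS (f : ℝ → ℂ) (hf : BD f) (h : RD f) : SchwartzMap ℝ ℂ where
  toFun := f
  smooth' := hf.1
  decay' := by
    intro k n
    obtain ⟨C, hC⟩ := RD_iter hf h n k
    refine ⟨C, fun x => ?_⟩
    rw [norm_iteratedFDeriv_eq_norm_iteratedDeriv]
    apply le_trans _ (hC x)
    gcongr
    rw [Real.norm_eq_abs]; linarith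

end Pool.Agent.X202.Wv
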