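import Pool.Agent.X202.Wv.D

set_option autoImplicit false
open Real Filter Topology

namespace Pool.Agent.X202.Wv

theorem orbit {x : ℝ} (h1 : 3/16 < x) (h2 : x ≤ 3/8) {n : ℕ} (hm : ∀ j < n + 2, mm (2^j * x) ≠ 0) :
    ∀ j ≤ n, ∃ q ε : ℤ, (ε = 1 ∨ ε = -1) ∧ (2:ℤ)^j = 3*q + ε ∧ |2^j*(x - 1/3)| ≤ 1/24 := by
  intro j
  induction j with
  | zero =>
    intro _
    refine ⟨0, 1, Or.inl rfl, by norm_num, ?_⟩
    rw [pow_zero, one_mul, abs_le]
    refine ⟨?_, by linarith⟩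
    by_contra hc
    push Not at hc
    apply hm 1 (by omega)
    apply mm_zero 0
    rw [abs_le]; push_cast; constructor <;> linarith
  | succ j ih =>
    intro hj
    obtain ⟨q, ε, hε, hq, hb⟩ := ih (by omega)
    have hq' : (2:ℤ)^(j+1) = 3*(2*q+ε) + (-ε) := by rw [pow_succ, hq]; ring
    refine ⟨2*q+ε, -ε, by omega, hq', ?_⟩
    have hr : (2:ℝ)^j = 3*q + ε := by exact_mod_cast hq
    have ha := hm (j+1) (by omega)
    have hb' := hm (j+1+1) (by omega)
    rw [pow_succ, hr] at ha ⊢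
    rw [pow_succ, pow_succ, hr] at hb'
    rw [hr] at hb
    rw [abs_le] at hb
    rcases hε with rfl | rfl
    · -- ε = 1, new ε = -1
      push_cast at *
      rw [abs_le]
      constructor
      · by_contra hc
        push Not at hc
        apply ha
        apply mm_zero (2*q)
        rw [abs_le]; push_cast; constructor <;> linarith
      · by_contra hc
        push Not at hc
        apply hb'
        apply mm_zero (4*q+1)
        rw [abs_le]; push_cast; constructor <;> linarith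
    · push_cast at *
      rw [abs_le]
      constructor
      · by_contra hc
        push Not at hc
        apply hb'
        apply mm_zero (4*q-2)
        rw [abs_le]; push_cast; constructor <;> linarith
      · by_contra hc
        push Not at hc
        apply ha
        apply mm_zero (2*q-1)
        rw [abs_le]; push_cast; constructor <;> linarith

theorem gg_decay (N : ℕ) : ∃ C : ℝ, ∀ y, (1+|y|)^N * |gg y| ≤ C := by
  obtain ⟨C1, hC1, hf⟩ := mm_flat N
  refine ⟨2^N + C1, fun y => ?_⟩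
  rcases le_or_gt |y| (3/4) with hy | hy
  · have h1 : (1+|y|)^N ≤ 2^N := by gcongr; linarith
    have h2 := gg_abs y
    calc (1+|y|)^N * |gg y| ≤ 2^N * 1 := by gcongr
      _ ≤ _ := by linarith
  by_cases hg : gg y = 0
  · rw [hg, abs_zero, mul_zero]; positivity
  have hg' : gg |y| = gg y := by
    rcases abs_choice y with h | h
    · rw [h]
    · rw [h, gg_neg]
  have hex : ∃ n : ℕ, |y| ≤ 3/8*2^n := by
    obtain ⟨n, hn⟩ := pow_unbounded_of_one_lt (8/3*|y|) (one_lt_two)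
    exact ⟨n, by linarith⟩
  classical
  obtain ⟨k, hk, hmin⟩ : ∃ k : ℕ, |y| ≤ 3/8*2^(k+2) ∧ 3/8*2^(k+1) < |y| := by
    have h1 := Nat.find_spec hex
    set n := Nat.find hex with hn
    have h2 : 2 ≤ n := by
      by_contra hc
      have : n = 0 ∨ n = 1 := by omega
      rcases this with h | h
      · rw [h] at h1; norm_num at h1; linarith
      · rw [h] at h1; norm_num at h1; linarith
    obtain ⟨k, hk⟩ := Nat.exists_eq_add_of_le' h2
    refine ⟨k, by rw [← hk]; exact h1, ?_⟩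
    have := Nat.find_min hex (m := k+1) (by omega)
    exact not_le.1 this
  set x := |y|/2^(k+2) with hx
  have hp : (0:ℝ) < 2^(k+2) := by positivity
  have hyx : |y| = 2^(k+2) * x := by rw [hx]; field_simp
  have hx2 : x ≤ 3/8 := by rw [hx, div_le_iff₀ hp]; linarith
  have hx1 : 3/16 < x := by
    rw [hx, lt_div_iff₀ hp]
    have : (2:ℝ)^(k+2) = 2^(k+1)*2 := by rw [pow_succ]
    rw [this]; linarith
  have hG : GG (k+2) |y| ≠ 0 := by
    intro h0
    apply hg
    rw [← hg', gg_pow (k+2), h0, zero_mul]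
  have hm : ∀ j < k + 2, mm (2^j * x) ≠ 0 := by
    intro j hj
    unfold GG at hG
    rw [Finset.prod_ne_zero_iff] at hG
    have := hG (k+2-j-1) (Finset.mem_range.2 (by omega))
    have e : |y| / 2^(k+2-j-1+1) = 2^j * x := by
      rw [hyx, show k+2-j-1+1 = k+2-j by omega]
      have : (2:ℝ)^(k+2) = 2^(k+2-j)*2^j := by rw [← pow_add]; congr 1; omega
      rw [this]; field_simp
    rwa [e] at this
  obtain ⟨q, ε, -, -, hb⟩ := orbit hx1 hx2 hm k le_rfl
  rw [abs_mul, abs_of_pos (by positivity : (0:ℝ) < 2^k)] at hb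
  have hb2 : 2^(k+2) * |x - 1/3| ≤ 1/6 := by rw [pow_add]; linarith
  have h8 : |x - 1/3| ≤ 1/8 := by
    have h9 : (1:ℝ) ≤ 2^k := one_le_pow₀ (by norm_num)
    nlinarith [abs_nonneg (x - 1/3)]
  have hfx := hf (x - 1/3) h8
  rw [show 1/3 + (x - 1/3) = x by ring] at hfx
  have hgx : |gg y| ≤ |mm x| := by
    rw [← hg', gg_pow (k+2)]
    have e : GG (k+2) |y| = GG (k+1) |y| * mm (|y|/2^(k+2)) := by unfold GG; rw [Finset.prod_range_succ]
    rw [e, ← hx, abs_mul, abs_mul]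
    have h1 := GG_abs (k+1) |y|
    have h2 := gg_abs x
    have h3 := abs_nonneg (mm x)
    have h4 := abs_nonneg (gg x)
    have h5 : abs (GG (k+1) (abs y)) * abs (mm x) ≤ abs (mm x) := mul_le_of_le_one_left h3 h1
    have h6 : abs (GG (k+1) (abs y)) * abs (mm x) * abs (gg x) ≤ abs (GG (k+1) (abs y)) * abs (mm x) :=
      mul_le_of_le_one_right (mul_nonneg (abs_nonneg _) h3) h2
    exact h6.trans h5
  have h1y : 1 + |y| ≤ 2^(k+2) := by linarith
  have hgy : |gg y| ≤ C1 * |x - 1/3| ^ N := hgx.trans hfx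
  have hd0 : 0 ≤ |x - 1/3| := abs_nonneg _
  generalize |x - 1/3| = d at hgy hd0 hb2
  have hdd : 2^(k+2) * d ≤ 1 := by linarith
  calc (1+|y|)^N * |gg y| ≤ (2^(k+2))^N * (C1 * d^N) := by gcongr
    _ = C1 * (2^(k+2) * d)^N := by rw [mul_pow]; ring
    _ ≤ C1 * 1^N := by gcongr
    _ ≤ 2^N + C1 := by rw [one_pow, mul_one]; linarith [(by positivity : (0:ℝ) < 2^N)]

theorem mm_nz {t : ℝ} (h0 : t ≠ 0) (ht : |t| ≤ 1/100) : mm (1/3 + t) ≠ 0 := by
  have h1 := cos_close t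
  have hpi := Real.pi_lt_d2
  have hpp := Real.pi_pos
  have h2 : 2*π*|t| < 1/10 := by nlinarith [abs_nonneg t]
  have h3 := abs_le.1 h1
  apply mm_pos
  · linarith
  · intro hc
    rw [← cos_third] at hc
    have h4 := abs_le.1 ht
    have := Real.injOn_cos (x₁ := 2*π*(1/3+t)) (x₂ := 2*π*(1/3))
      (Set.mem_Icc.2 ⟨by nlinarith, by nlinarith⟩) (Set.mem_Icc.2 ⟨by positivity, by nlinarith⟩) hc
    apply h0
    have h5 : 2*π*t = 0 := by linarith
    rcases mul_eq_zero.1 h5 with h | h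
    · linarith
    · exact h

theorem pow_mod (j : ℕ) : ∃ q ε : ℤ, (ε = 1 ∨ ε = -1) ∧ (2:ℤ)^j = 3*q + ε := by
  induction j with
  | zero => exact ⟨0, 1, Or.inl rfl, by norm_num⟩
  | succ j ih =>
    obtain ⟨q, ε, hε, hq⟩ := ih
    exact ⟨2*q+ε, -ε, by omega, by rw [pow_succ, hq]; ring⟩

theorem cos_orb (j : ℕ) (s : ℝ) : ∃ ε : ℝ, (ε = 1 ∨ ε = -1) ∧
    Real.cos (2*π*(2^j/3 + s)) = Real.cos (2*π*(1/3 + ε*s)) ∧ mm (2^j/3 + s) = mm (1/3 + ε*s) := by
  obtain ⟨q, ε, hε, hq⟩ := pow_mod j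
  have hr : (2:ℝ)^j = 3*q + ε := by exact_mod_cast hq
  have key : Real.cos (2*π*(2^j/3 + s)) = Real.cos (2*π*(1/3 + ε*s)) := by
    rw [hr]
    rcases hε with rfl | rfl
    · rw [show 2*π*((3*q+((1:ℤ):ℝ))/3 + s) = 2*π*(1/3+((1:ℤ):ℝ)*s) + q*(2*π) by push_cast; ring,
        Real.cos_add_int_mul_two_pi]
    · rw [show 2*π*((3*q+((-1:ℤ):ℝ))/3 + s) = -(2*π*(1/3+((-1:ℤ):ℝ)*s)) + q*(2*π) by push_cast; ring,
        Real.cos_add_int_mul_two_pi, Real.cos_neg]
  refine ⟨ε, by rcases hε with rfl | rfl <;> simp, key, ?_⟩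
  unfold mm; rw [key]

theorem gg_nz (n : ℕ) : gg (2^n/3 + 1/100) ≠ 0 := by
  obtain ⟨M, hM⟩ := pow_unbounded_of_one_lt (4*|(2:ℝ)^n/3 + 1/100|) (one_lt_two)
  rw [gg_eq hM.le]
  unfold GG
  rw [Finset.prod_ne_zero_iff]
  intro i _
  rcases Nat.lt_or_ge i n with hi | hi
  · obtain ⟨j, hj⟩ := Nat.exists_eq_add_of_lt hi
    have e : ((2:ℝ)^n/3 + 1/100) / 2^(i+1) = 2^j/3 + 1/100/2^(i+1) := by
      rw [hj, show i + j + 1 = (i+1) + j by ring, pow_add]; field_simp
    rw [e]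
    obtain ⟨ε, hε, -, h2⟩ := cos_orb j (1/100/2^(i+1))
    rw [h2]
    have h3 : |ε| = 1 := by rcases hε with rfl | rfl <;> simp
    apply mm_nz
    · intro hc
      have h4 : |ε * (1/100/2^(i+1))| = 0 := by rw [hc, abs_zero]
      rw [abs_mul, h3, one_mul, abs_eq_zero] at h4
      have : (0:ℝ) < 1/100/2^(i+1) := by positivity
      linarith
    · rw [abs_mul, h3, one_mul, abs_of_pos (by positivity)]
      apply div_le_self (by norm_num)
      exact one_le_pow₀ (by norm_num)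
  · obtain ⟨l, rfl⟩ := Nat.exists_eq_add_of_le hi
    have h1 : |((2:ℝ)^n/3 + 1/100) / 2^(n+l+1)| ≤ 1/4 := by
      rw [abs_of_pos (by positivity), div_le_iff₀ (by positivity)]
      have h2 : (2:ℝ)^(n+l+1) = 2^n*2^l*2 := by rw [pow_succ, pow_add]
      rw [h2]
      have h3 : (1:ℝ) ≤ 2^n := one_le_pow₀ (by norm_num)
      have h4 : (1:ℝ) ≤ 2^l := one_le_pow₀ (by norm_num)
      nlinarith
    have := mm_low h1
    intro hc
    rw [hc] at this
    norm_num at this

theorem mm_nz2 (n : ℕ) : mm (2^n/3 + 1/100 + 1/2) ≠ 0 := by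
  obtain ⟨ε, hε, h1, -⟩ := cos_orb n (1/100)
  have h3 : |ε| = 1 := by rcases hε with rfl | rfl <;> simp
  have h2 := cos_close (ε*(1/100))
  rw [← h1, abs_mul, h3, one_mul] at h2
  have hpi := Real.pi_lt_d2
  have hpp := Real.pi_pos
  have h4 : 2*π*|(1/100:ℝ)| < 1/10 := by rw [abs_of_pos (by norm_num)]; linarith
  have h5 := abs_le.1 h2
  have h6 : Real.cos (2*π*(2^n/3 + 1/100 + 1/2)) = - Real.cos (2*π*(2^n/3 + 1/100)) := by
    rw [show 2*π*(2^n/3 + 1/100 + 1/2) = 2*π*(2^n/3 + 1/100) + π by ring, Real.cos_add_pi]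
  apply mm_pos
  · rw [h6]; linarith
  · rw [h6]; intro hc; linarith

end Pool.Agent.X202.Wv
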